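import Pool.Agent.Lib.MP_acafa7_al.MS.Iface1

/-! Lemma 2.3, case of no big face (Gauss-Bonnet on a triangulated sphere): module Gb0. -/

open Classical

namespace MSG.H22

open MSG

/-- Sum of the three angles of a triangle of the map. -/
theorem th_sum (h2 : AngStatement) {D : Type} (M : DMap D) (ℓ : D → ℝ) (h3 : M.Off3 ∅)
    (hl : M.LenOK ℓ ∅) (d : D) :
    M.th ℓ d + M.th ℓ (M.φ d) + M.th ℓ (M.φ (M.φ d)) = Real.pi := by
  have e3 : M.φ (M.φ (M.φ d)) = d := (h3.2 d (by simp)).1
  obtain ⟨hp, -, ht⟩ := hl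
  have t1 := ht d (by simp)
  have t2 := ht (M.φ d) (by simp)
  have t3 := ht (M.φ (M.φ d)) (by simp)
  unfold DMap.th
  rw [e3] at t2 t3 ⊢
  have h := h2 (ℓ d) (ℓ (M.φ (M.φ d))) (ℓ (M.φ d)) (hp _) (hp _) (hp _) (by linarith)
    (by linarith) (by linarith)
  have := h.2.2.1
  linarith

theorem sum_th (h2 : AngStatement) {D : Type} [Fintype D] (M : DMap D) (ℓ : D → ℝ)
    (h3 : M.Off3 ∅) (hl : M.LenOK ℓ ∅) :
    3 * ∑ d : D, M.th ℓ d = (Fintype.card D : ℝ) * Real.pi := by
  have e1 : ∑ d : D, M.th ℓ (M.φ d) = ∑ d : D, M.th ℓ d := Equiv.sum_comp M.φ _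
  have e2 : ∑ d : D, M.th ℓ (M.φ (M.φ d)) = ∑ d : D, M.th ℓ d := by
    rw [← e1]
    exact Equiv.sum_comp M.φ (fun d => M.th ℓ (M.φ d))
  have e3 : ∑ d : D, (M.th ℓ d + M.th ℓ (M.φ d) + M.th ℓ (M.φ (M.φ d)))
      = (Fintype.card D : ℝ) * Real.pi := by
    rw [Finset.sum_congr rfl (fun d _ => th_sum h2 M ℓ h3 hl d)]
    simp
  rw [Finset.sum_add_distrib, Finset.sum_add_distrib, e1, e2] at e3
  linarith

/-- Sum over the classes of a setoid of the sums over the classes. -/
theorem sum_classes {D : Type} [Fintype D] (s : Setoid D) [Fintype (Quotient s)] (f : D → ℝ) :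
    ∑ q : Quotient s, ∑ d : D, (if s q.out d then f d else 0) = ∑ d : D, f d := by
  rw [Finset.sum_comm]
  refine Finset.sum_congr rfl fun d _ => ?_
  rw [Finset.sum_eq_single (Quotient.mk s d)]
  · rw [if_pos]
    exact Quotient.mk_out d
  · intro q _ hq
    rw [if_neg]
    intro h
    apply hq
    rw [← Quotient.out_eq q]
    exact Quotient.sound h
  · intro h
    exact absurd (Finset.mem_univ _) h

theorem sum_curv {D : Type} [Fintype D] (M : DMap D) (ℓ : D → ℝ) (B : Set D) :
    ∑ q : Quotient M.vSet, M.curv ℓ B q.out = 2 * Real.pi * M.nV - ∑ d : D, M.wt ℓ B d := by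
  unfold DMap.curv
  rw [Finset.sum_sub_distrib, Finset.sum_const, Finset.card_univ, DMap.nV, Nat.card_eq_fintype_card,
    nsmul_eq_mul, mul_comm]
  congr 1
  exact sum_classes M.vSet (fun d => M.wt ℓ B d)

/-- A class of the relation `SameCycle` has three elements. -/
theorem card_class {D : Type} [Fintype D] (M : DMap D) (h3 : M.Off3 ∅) (d : D) :
    (Finset.univ.filter (fun x : D => M.φ.SameCycle d x)).card = 3 := by
  obtain ⟨e3, e1⟩ := h3.2 d (by simp)
  have hS : (Finset.univ.filter (fun x : D => M.φ.SameCycle d x)) = {d, M.φ d, M.φ (M.φ d)} := by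
    ext x
    simp only [Finset.mem_filter, Finset.mem_univ, true_and, Finset.mem_insert,
      Finset.mem_singleton]
    constructor
    · rintro ⟨n, rfl⟩
      have hmod : (M.φ ^ n) d = (M.φ ^ (n % 3)) d := by
        conv_lhs => rw [← Int.emod_add_mul_ediv n 3]
        rw [zpow_add, zpow_mul, Equiv.Perm.mul_apply]
        congr 1
        have h33 : (M.φ ^ (3 : ℤ)) d = d := by
          have : (3 : ℤ) = ((3 : ℕ) : ℤ) := rfl
          rw [this, zpow_natCast]
          simpa [pow_succ] using e3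
        have : ∀ k : ℤ, ((M.φ ^ (3 : ℤ)) ^ k) d = d := fun k =>
          (Equiv.Perm.zpow_apply_eq_self_of_apply_eq_self h33 k)
        exact this _
      rw [hmod]
      have h0 := Int.emod_nonneg n (by norm_num : (3 : ℤ) ≠ 0)
      have h1 := Int.emod_lt_of_pos n (by norm_num : (0 : ℤ) < 3)
      interval_cases h : n % 3
      · left; simp
      · right; left; simp
      · right; right
        have : (2 : ℤ) = ((2 : ℕ) : ℤ) := rfl
        rw [this, zpow_natCast]
        simp [pow_succ]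
    · rintro (rfl | rfl | rfl)
      · exact Equiv.Perm.SameCycle.refl _ _
      · exact ⟨1, by simp⟩
      · refine ⟨2, ?_⟩
        have : (2 : ℤ) = ((2 : ℕ) : ℤ) := rfl
        rw [this, zpow_natCast]
        simp [pow_succ]
  rw [hS, Finset.card_eq_three]
  refine ⟨d, M.φ d, M.φ (M.φ d), fun h => e1 h.symm, ?_, ?_, rfl⟩
  · intro h
    apply e1
    conv_rhs => rw [← e3, ← h]
  · intro h
    exact e1 (M.φ.injective h).symm

theorem three_nF {D : Type} [Fintype D] (M : DMap D) (h3 : M.Off3 ∅) :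
    (Fintype.card D : ℝ) = 3 * M.nF := by
  have h := sum_classes (Equiv.Perm.SameCycle.setoid M.φ) (fun _ : D => (1 : ℝ))
  have h1 : ∀ q : Quotient (Equiv.Perm.SameCycle.setoid M.φ),
      ∑ d : D, (if (Equiv.Perm.SameCycle.setoid M.φ) q.out d then (1 : ℝ) else 0) = 3 := by
    intro q
    rw [Finset.sum_ite, Finset.sum_const_zero, add_zero, Finset.sum_const, nsmul_eq_mul, mul_one]
    have := card_class M h3 q.out
    have e : (Finset.univ.filter (fun x : D => (Equiv.Perm.SameCycle.setoid M.φ) q.out x))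
        = (Finset.univ.filter (fun x : D => M.φ.SameCycle q.out x)) := by
      ext x; simp only [Finset.mem_filter, Finset.mem_univ, true_and]; rfl
    rw [e, this]
    norm_num
  rw [Finset.sum_congr rfl (fun q _ => h1 q), Finset.sum_const, Finset.card_univ, nsmul_eq_mul,
    Finset.sum_const, Finset.card_univ, nsmul_eq_mul, mul_one] at h
  rw [← h, DMap.nF, Nat.card_eq_fintype_card, mul_comm]

theorem gb0 (h1 : EulStatement) (h2 : AngStatement) : Gb0Statement := by
  intro D _ M ℓ hP hne h3 hl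
  by_contra hcon
  push Not at hcon
  have hE := h1 D M hP hne
  have hs := sum_curv M ℓ ∅
  have hle : ∑ q : Quotient M.vSet, M.curv ℓ ∅ q.out ≤ 0 :=
    Finset.sum_nonpos fun q _ => hcon q.out
  have hw : ∑ d : D, M.wt ℓ ∅ d = ∑ d : D, M.th ℓ d :=
    Finset.sum_congr rfl fun d _ => by simp [DMap.wt]
  have ht := sum_th h2 M ℓ h3 hl
  have hF := three_nF M h3
  have hE' : (Fintype.card D : ℝ) + 4 ≤ 2 * ((M.nV : ℝ) + M.nF) := by exact_mod_cast hE
  rw [hw] at hs
  rw [hF] at ht hE'
  have hpi := Real.pi_pos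
  have : (M.nF : ℝ) + 4 ≤ 2 * M.nV := by linarith
  nlinarith
end MSG.H22
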